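import Pool.Agent.ChamberIso.Geom
/-!
Sign cells of a family of planes, and their relation to the chambers.
-/
set_option autoImplicit false

namespace Pool.Agent.ChamberIso

open Classical in
/-- The arrangement of the planes `q i`. -/
noncomputable def arr {n : ℕ} (q : Fin n → P4) : Finset (AffineSubspace ℝ E3) :=
  Finset.univ.image fun i => hyp (q i)

theorem mem_arr {n : ℕ} (q : Fin n → P4) (H : AffineSubspace ℝ E3) :
    H ∈ arr q ↔ ∃ i, hyp (q i) = H := by
  classical
  simp [arr]

theorem mem_openPart_arr {n : ℕ} (q : Fin n → P4) (x : E3) :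
    x ∈ openPart (arr q) ↔ ∀ i, ev (q i) x ≠ 0 := by
  constructor
  · intro h i hi
    exact h (hyp (q i)) ((mem_arr q _).2 ⟨i, rfl⟩) hi
  · intro h H hH
    obtain ⟨i, rfl⟩ := (mem_arr q _).1 hH
    exact h i

/-- The set of points where exactly the functions with index in `A` are positive and the
others are negative. -/
def cellOf {n : ℕ} (q : Fin n → P4) (A : Finset (Fin n)) : Set E3 :=
  {y | ∀ i, (i ∈ A → 0 < ev (q i) y) ∧ (i ∉ A → ev (q i) y < 0)}

/-- The indices of the functions that are positive at `x`. -/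
noncomputable def posSet {n : ℕ} (q : Fin n → P4) (x : E3) : Finset (Fin n) := by
  classical
  exact Finset.univ.filter fun i => 0 < ev (q i) x

theorem mem_posSet {n : ℕ} (q : Fin n → P4) (x : E3) (i : Fin n) :
    i ∈ posSet q x ↔ 0 < ev (q i) x := by
  simp [posSet]

theorem mem_cellOf_posSet {n : ℕ} (q : Fin n → P4) (x : E3) (hx : x ∈ openPart (arr q)) :
    x ∈ cellOf q (posSet q x) := by
  rw [mem_openPart_arr] at hx
  intro i
  rw [mem_posSet]
  refine ⟨id, fun h => lt_of_le_of_ne (not_lt.1 h) (hx i)⟩

theorem cellOf_subset {n : ℕ} (q : Fin n → P4) (A : Finset (Fin n)) :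
    cellOf q A ⊆ openPart (arr q) := by
  intro x hx
  rw [mem_openPart_arr]
  intro i
  by_cases h : i ∈ A
  · exact ((hx i).1 h).ne'
  · exact ((hx i).2 h).ne

theorem posSet_eq_of_mem {n : ℕ} (q : Fin n → P4) (A : Finset (Fin n)) (x : E3)
    (hx : x ∈ cellOf q A) : posSet q x = A := by
  ext i
  rw [mem_posSet]
  refine ⟨fun h => ?_, fun h => (hx i).1 h⟩
  by_contra hA
  exact absurd ((hx i).2 hA) (not_lt.2 h.le)

theorem convex_cellOf {n : ℕ} (q : Fin n → P4) (A : Finset (Fin n)) :
    Convex ℝ (cellOf q A) := by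
  intro x hx y hy a b ha hb hab i
  rw [ev_comb _ _ _ _ _ hab]
  constructor
  · intro hi
    have h1 := (hx i).1 hi
    have h2 := (hy i).1 hi
    rcases eq_or_lt_of_le ha with h | h
    · subst h
      have : b = 1 := by linarith
      subst this
      linarith
    · have := mul_pos h h1
      have := mul_nonneg hb h2.le
      linarith
  · intro hi
    have h1 := (hx i).2 hi
    have h2 := (hy i).2 hi
    rcases eq_or_lt_of_le ha with h | h
    · subst h
      have : b = 1 := by linarith
      subst this
      linarith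
    · have := mul_neg_of_pos_of_neg h h1
      have := mul_nonpos_of_nonneg_of_nonpos hb h2.le
      linarith

/-- The connected component of a point of a sign cell is the whole cell. -/
theorem connectedComponentIn_eq {n : ℕ} (q : Fin n → P4) (A : Finset (Fin n)) (x : E3)
    (hx : x ∈ cellOf q A) : connectedComponentIn (openPart (arr q)) x = cellOf q A := by
  apply Set.Subset.antisymm
  · intro y hy i
    have hsub := connectedComponentIn_subset (openPart (arr q)) x
    have hpre : IsPreconnected (connectedComponentIn (openPart (arr q)) x) :=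
      isPreconnected_connectedComponentIn
    have hxm : x ∈ connectedComponentIn (openPart (arr q)) x :=
      mem_connectedComponentIn (cellOf_subset q A hx)
    have hne : ∀ z ∈ connectedComponentIn (openPart (arr q)) x, ev (q i) z ≠ 0 :=
      fun z hz => (mem_openPart_arr q z).1 (hsub hz) i
    constructor
    · intro hi
      by_contra hcon
      have hy0 : ev (q i) y ≤ 0 := not_lt.1 hcon
      obtain ⟨z, hz, hz0⟩ := hpre.intermediate_value hy hxm (continuous_ev (q i)).continuousOn
        ⟨hy0, ((hx i).1 hi).le⟩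
      exact hne z hz hz0
    · intro hi
      by_contra hcon
      have hy0 : 0 ≤ ev (q i) y := not_lt.1 hcon
      obtain ⟨z, hz, hz0⟩ := hpre.intermediate_value hxm hy (continuous_ev (q i)).continuousOn
        ⟨((hx i).2 hi).le, hy0⟩
      exact hne z hz hz0
  · exact (convex_cellOf q A).isPreconnected.subset_connectedComponentIn hx (cellOf_subset q A)

/-- The chambers are exactly the nonempty sign cells. -/
theorem mem_chambers_arr {n : ℕ} (q : Fin n → P4) (C : Set E3) :
    C ∈ chambers (arr q) ↔ ∃ A, (cellOf q A).Nonempty ∧ C = cellOf q A := by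
  constructor
  · rintro ⟨x, hx, rfl⟩
    exact ⟨posSet q x, ⟨x, mem_cellOf_posSet q x hx⟩,
      connectedComponentIn_eq q _ x (mem_cellOf_posSet q x hx)⟩
  · rintro ⟨A, ⟨x, hx⟩, rfl⟩
    exact ⟨x, cellOf_subset q A hx, (connectedComponentIn_eq q A x hx).symm⟩

theorem cellOf_injOn {n : ℕ} (q : Fin n → P4) (A B : Finset (Fin n))
    (hA : (cellOf q A).Nonempty) (h : cellOf q A = cellOf q B) : A = B := by
  obtain ⟨x, hx⟩ := hA
  have hx' : x ∈ cellOf q B := h ▸ hx
  rw [← posSet_eq_of_mem q A x hx, posSet_eq_of_mem q B x hx']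

/-- A plane separates two sign cells iff the signs differ. -/
theorem separates_cellOf {n : ℕ} (q : Fin n → P4) (A B : Finset (Fin n)) (i : Fin n)
    (hA : (cellOf q A).Nonempty) (hB : (cellOf q B).Nonempty) :
    Separates (hyp (q i)) (cellOf q A) (cellOf q B) ↔ ¬ (i ∈ A ↔ i ∈ B) := by
  constructor
  · intro h hiff
    obtain ⟨x, hx⟩ := hA
    obtain ⟨y, hy⟩ := hB
    have h1 := (sOppSide_hyp (q i) x y).1 (h x hx y hy)
    by_cases hi : i ∈ A
    · have h2 := (hx i).1 hi
      have h3 := (hy i).1 (hiff.1 hi)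
      exact absurd h1 (not_lt.2 (mul_pos h2 h3).le)
    · have h2 := (hx i).2 hi
      have h3 := (hy i).2 (fun h => hi (hiff.2 h))
      exact absurd h1 (not_lt.2 (mul_pos_of_neg_of_neg h2 h3).le)
  · intro h x hx y hy
    rw [sOppSide_hyp]
    by_cases hi : i ∈ A
    · have hiB : i ∉ B := fun hB' => h ⟨fun _ => hB', fun _ => hi⟩
      exact mul_neg_of_pos_of_neg ((hx i).1 hi) ((hy i).2 hiB)
    · have hiB : i ∈ B := by
        by_contra hB'
        exact h ⟨fun h' => absurd h' hi, fun h' => absurd h' hB'⟩
      exact mul_neg_of_neg_of_pos ((hx i).2 hi) ((hy i).1 hiB)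

end Pool.Agent.ChamberIso
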