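import Pool.Agent.ChamberIso.Data
/-!
Kernel computations for the counterexample in MP_90133a_co.
-/
set_option autoImplicit false
set_option maxRecDepth 100000

namespace Pool.Agent.ChamberIso

/-- The `i`-th plane. -/
def pl (i : ℕ) : P4 := planes.getD i ⟨0, 0, 0, 0⟩

/-- Homogeneous coordinates of the common point of three planes. -/
def cross (p q r : P4) : P4 where
  a := -(p.d * (q.b * r.c - q.c * r.b) - p.b * (q.d * r.c - q.c * r.d)
        + p.c * (q.d * r.b - q.b * r.d))
  b := -(p.a * (q.d * r.c - q.c * r.d) - p.d * (q.a * r.c - q.c * r.a)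
        + p.c * (q.a * r.d - q.d * r.a))
  c := -(p.a * (q.b * r.d - q.d * r.b) - p.b * (q.a * r.d - q.d * r.a)
        + p.d * (q.a * r.b - q.b * r.a))
  d := p.a * (q.b * r.c - q.c * r.b) - p.b * (q.a * r.c - q.c * r.a)
        + p.c * (q.a * r.b - q.b * r.a)

/-- Pairing of a plane with homogeneous coordinates of a point. -/
def dot (p q : P4) : ℤ := p.a * q.a + p.b * q.b + p.c * q.c + p.d * q.d

/-- `p i` for all `i < n`. -/
def allBelow : ℕ → (ℕ → Bool) → Bool
  | 0, _ => true
  | n + 1, p => p n && allBelow n p

/-- No three normals are dependent and no four planes meet. -/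
def genCheck : Bool :=
  allBelow 24 fun l => allBelow l fun k => allBelow k fun j =>
    !((cross (pl l) (pl k) (pl j)).d == 0) &&
    allBelow j fun i => !(dot (pl i) (cross (pl l) (pl k) (pl j)) == 0)

/-- The signs of the planes at the homogeneous point `P` agree with the bits of `v`,
apart from the planes `i`, `j`, `k`. -/
def signCheck (P : P4) (v i j k : ℕ) : Bool :=
  allBelow 24 fun l => (l == i || l == j || l == k) ||
    bif v.testBit l then decide (0 < dot (pl l) P * P.d) else decide (dot (pl l) P * P.d < 0)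

/-- The certificate check at a node. -/
def nodeCheck (v c : ℕ) : Bool :=
  decide (v < 2 ^ 24) && (c % 24 < c / 24 % 24 && c / 24 % 24 < c / 576 && c / 576 < 24) &&
  signCheck (cross (pl (c % 24)) (pl (c / 24 % 24)) (pl (c / 576))) v (c % 24) (c / 24 % 24) (c / 576)

/-- All nodes satisfy the predicate. -/
def Tr.all (p : ℕ → ℕ → Bool) : Tr → Bool
  | Tr.L => true
  | Tr.n l v c r => p v c && (l.all p && r.all p)

/-- Search-tree condition: keys are increasing and lie in `[lo, hi)`. -/
def Tr.ordered : Tr → ℕ → ℕ → Bool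
  | Tr.L, _, _ => true
  | Tr.n l v _ r, lo, hi => decide (lo ≤ v) && decide (v < hi) && (l.ordered lo v && r.ordered (v + 1) hi)

/-- Number of nodes. -/
def Tr.size : Tr → ℕ
  | Tr.L => 0
  | Tr.n l _ _ r => l.size + 1 + r.size

/-- Search for a key. -/
def Tr.mem : Tr → ℕ → Bool
  | Tr.L, _ => false
  | Tr.n l v _ r, x => bif Nat.blt x v then l.mem x else bif Nat.blt v x then r.mem x else true

end Pool.Agent.ChamberIso
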