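import Mathlib
/-!
Definitions for MP_90133a_co: arrangements of affine hyperplanes in general position in a
`d`-dimensional real affine space, their chambers, the chamber graph and edge boundaries.
They are used for `V = Fin d → ℝ`.
-/
set_option autoImplicit false

namespace Pool.Agent.ChamberIso

variable {V : Type} [AddCommGroup V] [Module ℝ V]

/-- The intersection of the members of a finite set of affine subspaces. -/
def meet (T : Finset (AffineSubspace ℝ V)) : AffineSubspace ℝ V :=
  sInf (T : Set (AffineSubspace ℝ V))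

/-- A finite set `𝓗` of affine subspaces of a `d`-dimensional real space is an arrangement of
hyperplanes in general position: for every `m ≤ d`, any `m` of them meet in a nonempty affine
subspace of dimension `d - m` (for `m = 1` this says that each of them is a hyperplane), and any
`d + 1` of them have empty intersection. -/
def GeneralPosition (d : ℕ) (𝓗 : Finset (AffineSubspace ℝ V)) : Prop :=
  ∀ T : Finset (AffineSubspace ℝ V), T ⊆ 𝓗 →
    (T.card ≤ d → (∃ x, x ∈ meet T) ∧ Module.finrank ℝ (meet T).direction + T.card = d) ∧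
    (T.card = d + 1 → ¬ ∃ x, x ∈ meet T)

/-- The complement of the union of the hyperplanes. -/
def openPart (𝓗 : Finset (AffineSubspace ℝ V)) : Set V :=
  {x | ∀ H ∈ 𝓗, x ∉ H}

/-- The chambers: the connected components of the complement of the union of the hyperplanes. -/
def chambers [TopologicalSpace V] (𝓗 : Finset (AffineSubspace ℝ V)) : Set (Set V) :=
  {C | ∃ x ∈ openPart 𝓗, C = connectedComponentIn (openPart 𝓗) x}

/-- The subspace `H` separates the sets `C` and `D`: every point of `C` and every point of `D`
lie strictly on opposite sides of `H`. -/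
def Separates (H : AffineSubspace ℝ V) (C D : Set V) : Prop :=
  ∀ x ∈ C, ∀ y ∈ D, H.SOppSide x y

/-- `C` and `D` are different, and exactly one member of `𝓗` separates them. -/
def Adjacent (𝓗 : Finset (AffineSubspace ℝ V)) (C D : Set V) : Prop :=
  C ≠ D ∧ ∃! H, H ∈ 𝓗 ∧ Separates H C D

theorem Separates.symm {H : AffineSubspace ℝ V} {C D : Set V} (h : Separates H C D) :
    Separates H D C := fun x hx y hy => (h y hy x hx).symm

theorem Adjacent.symm {𝓗 : Finset (AffineSubspace ℝ V)} {C D : Set V} (h : Adjacent 𝓗 C D) :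
    Adjacent 𝓗 D C := by
  obtain ⟨hne, H, ⟨hH, hs⟩, hu⟩ := h
  exact ⟨hne.symm, H, ⟨hH, hs.symm⟩, fun H' h' => hu H' ⟨h'.1, h'.2.symm⟩⟩

/-- The chamber graph: its vertices are the chambers, and two chambers are adjacent when exactly
one hyperplane of `𝓗` separates them. -/
def chamberGraph [TopologicalSpace V] (𝓗 : Finset (AffineSubspace ℝ V)) :
    SimpleGraph (chambers 𝓗) where
  Adj C D := Adjacent 𝓗 (C : Set V) (D : Set V)
  symm := ⟨fun _ _ h => h.symm⟩
  loopless := ⟨fun _ h => h.1 rfl⟩

/-- The edge boundary of a set `S` of vertices of a graph: the edges with exactly one endpoint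
in `S`. -/
def edgeBoundary {W : Type*} (G : SimpleGraph W) (S : Set W) : Set (Sym2 W) :=
  {e | e ∈ G.edgeSet ∧ ∃ u v, e = s(u, v) ∧ u ∈ S ∧ v ∉ S}

/-- The inequality of the question for the arrangement `𝓗` in a `d`-dimensional space: every set
`S` of at most half of the chambers with `|S| = ∑_{i ≤ d} C(k, i)` for an integer `k ≥ d - 1` has
`|∂S| ≥ ∑_{i ≤ d - 1} C(k, i)`. -/
def IsoperimetricInequality [TopologicalSpace V] (d : ℕ) (𝓗 : Finset (AffineSubspace ℝ V)) :
    Prop :=
  ∀ (S : Set (chambers 𝓗)) (k : ℕ), d - 1 ≤ k →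
    2 * S.encard ≤ (chambers 𝓗).encard →
    S.encard = ((∑ i ∈ Finset.range (d + 1), k.choose i : ℕ) : ℕ∞) →
    ((∑ i ∈ Finset.range d, k.choose i : ℕ) : ℕ∞) ≤ (edgeBoundary (chamberGraph 𝓗) S).encard

end Pool.Agent.ChamberIso
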