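import Pool.Agent.ChamberIso.Vertex
/-!
General position of an arrangement of planes from determinants.
-/
set_option autoImplicit false

namespace Pool.Agent.ChamberIso

/-- Hypothesis: for `a < b < c` the normals of the planes `c, b, a` are independent. -/
def Gen3 {n : ℕ} (q : Fin n → P4) : Prop :=
  ∀ a b c : Fin n, a < b → b < c → (cross (q c) (q b) (q a)).d ≠ 0

/-- Hypothesis: four planes have no common point. -/
def Gen4 {n : ℕ} (q : Fin n → P4) : Prop :=
  ∀ a b c d : Fin n, a < b → b < c → c < d → dot (q a) (cross (q d) (q c) (q b)) ≠ 0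

theorem surj3 {n : ℕ} (q : Fin n → P4) (h3 : Gen3 q) (I : Finset (Fin n)) (hI : I.card = 3)
    (g : Fin n → ℝ) : ∃ x : E3, ∀ i ∈ I, ev (q i) x = g i := by
  let e := I.orderEmbOfFin hI
  have he : ∀ i ∈ I, i = e 2 ∨ i = e 1 ∨ i = e 0 := by
    intro i hi
    have : i ∈ Set.range e := by
      rw [Finset.range_orderEmbOfFin]
      exact hi
    obtain ⟨t, rfl⟩ := this
    fin_cases t
    · right; right; rfl
    · right; left; rfl
    · left; rfl
  have hlt1 : e 0 < e 1 := e.lt_iff_lt.2 (by decide)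
  have hlt2 : e 1 < e 2 := e.lt_iff_lt.2 (by decide)
  have hW := h3 _ _ _ hlt1 hlt2
  obtain ⟨hv1, hv2, hv3⟩ := lin_dirv (q (e 2)) (q (e 1)) (q (e 0)) (g (e 2)) (g (e 1)) (g (e 0)) hW
  refine ⟨pt (cross (q (e 2)) (q (e 1)) (q (e 0))) + (1 : ℝ) •
    dirv (q (e 2)) (q (e 1)) (q (e 0)) (g (e 2)) (g (e 1)) (g (e 0)), ?_⟩
  intro i hi
  rcases he i hi with rfl | rfl | rfl
  · rw [ev_add_smul, hv1, ev_pt _ _ hW, dot_cross_1]; simp
  · rw [ev_add_smul, hv2, ev_pt _ _ hW, dot_cross_2]; simp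
  · rw [ev_add_smul, hv3, ev_pt _ _ hW, dot_cross_3]; simp

theorem surj_le3 {n : ℕ} (hn : 3 ≤ n) (q : Fin n → P4) (h3 : Gen3 q) (I : Finset (Fin n))
    (hI : I.card ≤ 3) (g : Fin n → ℝ) : ∃ x : E3, ∀ i ∈ I, ev (q i) x = g i := by
  obtain ⟨J, hIJ, hJ⟩ := Finset.exists_superset_card_eq (s := I) (n := 3) hI (by simpa using hn)
  obtain ⟨x, hx⟩ := surj3 q h3 J hJ g
  exact ⟨x, fun i hi => hx i (hIJ hi)⟩

theorem hyp_injective {n : ℕ} (hn : 3 ≤ n) (q : Fin n → P4) (h3 : Gen3 q) :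
    Function.Injective fun i => hyp (q i) := by
  intro i j hij
  by_contra hne
  obtain ⟨x, hx⟩ := surj_le3 hn q h3 {i, j} (Finset.card_le_two.trans (by norm_num))
    (fun l => if l = j then 1 else 0)
  have h1 : ev (q i) x = 0 := by
    have := hx i (by simp)
    rwa [if_neg hne] at this
  have h2 : ev (q j) x = 1 := by
    have := hx j (by simp)
    rwa [if_pos rfl] at this
  have h3' : x ∈ hyp (q i) := h1
  have h4 : x ∈ hyp (q j) := by
    have hij' : hyp (q i) = hyp (q j) := hij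
    rw [← hij']
    exact h3'
  rw [mem_hyp, h2] at h4
  exact one_ne_zero h4

/-- The linear part, as a linear map. -/
noncomputable def linMap (p : P4) : E3 →ₗ[ℝ] ℝ where
  toFun := lin p
  map_add' x y := by simp only [lin, Pi.add_apply]; ring
  map_smul' c x := by
    simp only [lin, Pi.smul_apply, smul_eq_mul, RingHom.id_apply]; ring

theorem ev_eq_of_lin (p : P4) (x y : E3) : ev p x = ev p y + lin p (x - y) := by
  simp only [ev, lin, Pi.sub_apply]
  ring

theorem finrank_inf {n : ℕ} (hn : 3 ≤ n) (q : Fin n → P4) (h3 : Gen3 q) (I : Finset (Fin n))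
    (hI : I.card ≤ 3) :
    Module.finrank ℝ (⨅ i : I, hyp (q i) : AffineSubspace ℝ E3).direction = 3 - I.card := by
  obtain ⟨x0, hx0⟩ := surj_le3 hn q h3 I hI (fun _ => 0)
  let L : E3 →ₗ[ℝ] (I → ℝ) := LinearMap.pi fun i => linMap (q i)
  have hL : ∀ v i, L v i = lin (q i) v := fun v i => rfl
  have hsurj : Function.Surjective L := by
    intro g
    obtain ⟨x, hx⟩ := surj_le3 hn q h3 I hI (fun i => if h : i ∈ I then g ⟨i, h⟩ else 0)
    refine ⟨x - x0, ?_⟩
    funext i
    rw [hL]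
    have h1 := hx i i.2
    have h2 := hx0 i i.2
    rw [ev_eq_of_lin (q i) x x0, h2, zero_add] at h1
    rw [h1]
    simp
  have hdir : (⨅ i : I, hyp (q i) : AffineSubspace ℝ E3).direction = LinearMap.ker L := by
    have : (⨅ i : I, hyp (q i) : AffineSubspace ℝ E3) = AffineSubspace.mk' x0 (LinearMap.ker L) := by
      ext x
      rw [AffineSubspace.mem_iInf_iff, AffineSubspace.mem_mk', LinearMap.mem_ker]
      constructor
      · intro h
        funext i
        rw [hL]
        have h1 : ev (q i) x = 0 := h i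
        rw [ev_eq_of_lin (q i) x x0, hx0 i i.2, zero_add] at h1
        exact h1
      · intro h i
        have h1 := congrFun h i
        rw [hL] at h1
        rw [mem_hyp, ev_eq_of_lin (q i) x x0, hx0 i i.2, zero_add]
        exact h1
    rw [this, AffineSubspace.direction_mk']
  rw [hdir]
  have hrn := LinearMap.finrank_range_add_finrank_ker L
  rw [LinearMap.range_eq_top.2 hsurj, finrank_top] at hrn
  have h1 : Module.finrank ℝ (I → ℝ) = I.card := by simp
  have h2 : Module.finrank ℝ E3 = 3 := by simp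
  rw [h1] at hrn
  have h3' : Module.finrank ℝ (LinearMap.ker L) = 3 - I.card :=
    Nat.eq_sub_of_add_eq' (hrn.trans h2)
  exact h3'

theorem no_common {n : ℕ} (q : Fin n → P4) (h4 : Gen4 q) (I : Finset (Fin n))
    (hI : I.card = 4) : ¬ ∃ x : E3, ∀ i ∈ I, ev (q i) x = 0 := by
  rintro ⟨x, hx⟩
  let e := I.orderEmbOfFin hI
  have he : ∀ t, e t ∈ I := fun t => Finset.orderEmbOfFin_mem I hI t
  have hlt1 : e 0 < e 1 := e.lt_iff_lt.2 (by decide)
  have hlt2 : e 1 < e 2 := e.lt_iff_lt.2 (by decide)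
  have hlt3 : e 2 < e 3 := e.lt_iff_lt.2 (by decide)
  refine h4 _ _ _ _ hlt1 hlt2 hlt3 ?_
  have h0 := hx _ (he 0)
  have h1 := hx _ (he 1)
  have h2 := hx _ (he 2)
  have h3 := hx _ (he 3)
  generalize q (e 0) = s at *
  generalize q (e 1) = r at *
  generalize q (e 2) = q' at *
  generalize q (e 3) = p at *
  have key : ((dot s (cross p q' r) : ℤ) : ℝ) = 0 := by
    simp only [ev] at h0 h1 h2 h3
    simp only [dot, cross]
    push_cast
    linear_combination ((p.a : ℝ) * (q'.b * r.c - q'.c * r.b) - p.b * (q'.a * r.c - q'.c * r.a)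
      + p.c * (q'.a * r.b - q'.b * r.a)) * h0
      - ((s.a : ℝ) * (q'.b * r.c - q'.c * r.b) - s.b * (q'.a * r.c - q'.c * r.a)
        + s.c * (q'.a * r.b - q'.b * r.a)) * h3
      - ((p.a : ℝ) * (s.b * r.c - s.c * r.b) - p.b * (s.a * r.c - s.c * r.a)
        + p.c * (s.a * r.b - s.b * r.a)) * h2
      - ((p.a : ℝ) * (q'.b * s.c - q'.c * s.b) - p.b * (q'.a * s.c - q'.c * s.a)
        + p.c * (q'.a * s.b - q'.b * s.a)) * h1
  exact_mod_cast key

theorem generalPosition_arr {n : ℕ} (hn : 3 ≤ n) (q : Fin n → P4) (h3 : Gen3 q) (h4 : Gen4 q) :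
    GeneralPosition 3 (arr q) := by
  classical
  have hinj := hyp_injective hn q h3
  intro T hTs
  obtain ⟨I, hIc, hI⟩ : ∃ I : Finset (Fin n), I.card = T.card ∧
      ∀ H, H ∈ T ↔ ∃ i ∈ I, hyp (q i) = H := by
    unfold arr at hTs
    obtain ⟨I, _, hI⟩ := Finset.subset_image_iff.1 hTs
    refine ⟨I, ?_, ?_⟩
    · rw [← hI, Finset.card_image_of_injective _ hinj]
    · intro H
      rw [← hI, Finset.mem_image]
  have hmem : ∀ x : E3, x ∈ meet T ↔ ∀ i ∈ I, ev (q i) x = 0 := by
    intro x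
    rw [meet, AffineSubspace.mem_sInf_iff]
    constructor
    · intro h i hi
      exact h _ (Finset.mem_coe.2 ((hI _).2 ⟨i, hi, rfl⟩))
    · intro h H hH
      obtain ⟨i, hi, rfl⟩ := (hI H).1 (Finset.mem_coe.1 hH)
      exact h i hi
  constructor
  · intro hTc
    rw [← hIc] at hTc
    constructor
    · obtain ⟨x, hx⟩ := surj_le3 hn q h3 I hTc (fun _ => 0)
      exact ⟨x, (hmem x).2 hx⟩
    · have heq : meet T = ⨅ i : I, hyp (q i) := by
        ext x
        rw [hmem, AffineSubspace.mem_iInf_iff]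
        exact ⟨fun h i => h i i.2, fun h i hi => h ⟨i, hi⟩⟩
      rw [heq, finrank_inf hn q h3 I hTc, ← hIc]
      omega
  · intro hTc
    rw [← hIc] at hTc
    rintro ⟨x, hx⟩
    exact no_common q h4 I hTc ⟨x, (hmem x).1 hx⟩

end Pool.Agent.ChamberIso
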