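import Pool.Agent.ChamberIso.Defs
import Pool.Agent.ChamberIso.Check
/-!
Geometry for the counterexample in MP_90133a_co: affine functions on `ℝ^3`, sign cells.
-/
set_option autoImplicit false

namespace Pool.Agent.ChamberIso

/-- Space. -/
abbrev E3 := Fin 3 → ℝ

/-- The affine function with coefficients `p`. -/
noncomputable def ev (p : P4) (x : E3) : ℝ := p.a * x 0 + p.b * x 1 + p.c * x 2 + p.d

/-- The zero set of the affine function. -/
def hyp (p : P4) : AffineSubspace ℝ E3 where
  carrier := {x | ev p x = 0}
  smul_vsub_vadd_mem' := by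
    intro c x y z hx hy hz
    simp only [Set.mem_ofPred_eq, ev, vsub_eq_sub, vadd_eq_add, Pi.add_apply, Pi.smul_apply,
      Pi.sub_apply, smul_eq_mul] at *
    linear_combination c * hx - c * hy + hz

theorem mem_hyp (p : P4) (x : E3) : x ∈ hyp p ↔ ev p x = 0 := Iff.rfl

theorem continuous_ev (p : P4) : Continuous (ev p) := by
  unfold ev
  fun_prop

theorem ev_line (p : P4) (x y : E3) (t : ℝ) :
    ev p (x + t • (y - x)) = (1 - t) * ev p x + t * ev p y := by
  simp only [ev, Pi.add_apply, Pi.smul_apply, Pi.sub_apply, smul_eq_mul]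
  ring

theorem ev_comb (p : P4) (x y : E3) (a b : ℝ) (h : a + b = 1) :
    ev p (a • x + b • y) = a * ev p x + b * ev p y := by
  simp only [ev, Pi.add_apply, Pi.smul_apply, smul_eq_mul]
  linear_combination (- (p.d : ℝ)) * h

/-- Strictly opposite sides of a plane. -/
theorem sOppSide_hyp (p : P4) (x y : E3) :
    (hyp p).SOppSide x y ↔ ev p x * ev p y < 0 := by
  constructor
  · intro h
    obtain ⟨z, hz, hs⟩ := h.exists_sbtw
    obtain ⟨⟨t, ⟨ht0, ht1⟩, rfl⟩, hne1, hne2⟩ := hs
    have hx : ev p x ≠ 0 := h.left_notMem
    have hy : ev p y ≠ 0 := h.right_notMem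
    have hz' : ev p (AffineMap.lineMap x y t) = 0 := hz
    rw [AffineMap.lineMap_apply, vsub_eq_sub, vadd_eq_add, add_comm, ev_line] at hz'
    have ht0' : t ≠ 0 := by
      rintro rfl
      apply hx
      linarith
    have ht1' : t ≠ 1 := by
      rintro rfl
      apply hy
      linarith
    have h0 : 0 < t := lt_of_le_of_ne ht0 (Ne.symm ht0')
    have h1 : t < 1 := lt_of_le_of_ne ht1 ht1'
    have : t * (ev p x * ev p y) = - ((1 - t) * (ev p x) ^ 2) := by
      linear_combination ev p x * hz'
    have h2 : 0 < (1 - t) * (ev p x) ^ 2 := by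
      have := sub_pos.mpr h1
      positivity
    by_contra hcon
    push Not at hcon
    nlinarith [mul_nonneg h0.le hcon]
  · intro h
    have hx : ev p x ≠ 0 := by rintro h0; rw [h0] at h; simp at h
    have hy : ev p y ≠ 0 := by rintro h0; rw [h0] at h; simp at h
    have hd : ev p x - ev p y ≠ 0 := by
      intro h0
      have : ev p x = ev p y := by linarith
      rw [this] at h
      nlinarith [mul_self_nonneg (ev p y)]
    have hsb : Sbtw ℝ x (AffineMap.lineMap x y (ev p x / (ev p x - ev p y))) y := by
      rw [sbtw_lineMap_iff]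
      refine ⟨?_, ?_, ?_⟩
      · rintro rfl
        exact hd (sub_self _)
      · rcases lt_or_gt_of_ne hx with h1 | h1
        · have h2 : 0 < ev p y := by nlinarith
          rw [← neg_div_neg_eq]
          exact div_pos (by linarith) (by linarith)
        · have h2 : ev p y < 0 := by nlinarith
          exact div_pos (by linarith) (by linarith)
      · rcases lt_or_gt_of_ne hx with h1 | h1
        · have h2 : 0 < ev p y := by nlinarith
          rw [← neg_div_neg_eq, div_lt_one (by linarith)]
          linarith
        · have h2 : ev p y < 0 := by nlinarith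
          rw [div_lt_one (by linarith)]
          linarith
    refine hsb.sOppSide_of_notMem_of_mem hx ?_
    rw [mem_hyp, AffineMap.lineMap_apply, vsub_eq_sub, vadd_eq_add, add_comm, ev_line]
    field_simp
    ring

end Pool.Agent.ChamberIso
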