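import Pool.Agent.ChamberIso.Trees
/-!
The kernel computations.
-/
set_option autoImplicit false
set_option maxRecDepth 100000

namespace Pool.Agent.ChamberIso

/-! ### Kernel computations -/

theorem genCheck_true : genCheck = true := by decide +kernel

theorem nodesS : treeS.all nodeCheck = true := by decide +kernel

theorem nodesT : treeT.all nodeCheck = true := by decide +kernel

theorem ordS : treeS.ordered 0 (2 ^ 24) = true := by decide +kernel

theorem ordT : treeT.ordered 0 (2 ^ 24) = true := by decide +kernel

theorem sizeS : treeS.size = 1160 := by decide +kernel

theorem sizeT : treeT.size = 1165 := by decide +kernel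

theorem disjST : treeS.all (fun v _ => !treeT.mem v) = true := by decide +kernel

theorem boundary_count :
    treeS.sumOver (fun v => cntBelow 24 fun i => treeT.mem (v ^^^ 2 ^ i)) = 187 := by
  decide +kernel

end Pool.Agent.ChamberIso
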