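import Pool.Agent.ChamberIso.Kernel
/-!
Assembly of the counterexample in MP_90133a_co.
-/
set_option autoImplicit false
set_option maxRecDepth 100000

namespace Pool.Agent.ChamberIso

/-- The 24 planes. -/
def qq : Fin 24 → P4 := fun i => pl i

/-- The index set of a mask. -/
def maskSet (v : ℕ) : Finset (Fin 24) := Finset.univ.filter fun i => v.testBit i = true

theorem mem_maskSet (v : ℕ) (i : Fin 24) : i ∈ maskSet v ↔ v.testBit i = true := by
  simp [maskSet]

theorem maskSet_inj {v w : ℕ} (hv : v < 2 ^ 24) (hw : w < 2 ^ 24) (h : maskSet v = maskSet w) :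
    v = w := by
  apply Nat.eq_of_testBit_eq
  intro i
  by_cases hi : i < 24
  · have h1 := mem_maskSet v ⟨i, hi⟩
    have h2 := mem_maskSet w ⟨i, hi⟩
    rw [h, h2] at h1
    simp only at h1
    exact Bool.eq_iff_iff.2 h1.symm
  · have h1 : v < 2 ^ i := lt_of_lt_of_le hv (Nat.pow_le_pow_right (by norm_num) (not_lt.1 hi))
    have h2 : w < 2 ^ i := lt_of_lt_of_le hw (Nat.pow_le_pow_right (by norm_num) (not_lt.1 hi))
    rw [Nat.testBit_lt_two_pow h1, Nat.testBit_lt_two_pow h2]

theorem gen3_qq : Gen3 qq := by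
  intro a b c hab hbc
  have h := genCheck_true
  unfold genCheck at h
  have h1 := allBelow_spec (allBelow_spec (allBelow_spec h c c.2) b hbc) a hab
  simp only [Bool.and_eq_true, Bool.not_eq_true', beq_eq_false_iff_ne, ne_eq] at h1
  exact h1.1

theorem gen4_qq : Gen4 qq := by
  intro a b c d hab hbc hcd
  have h := genCheck_true
  unfold genCheck at h
  have h1 := allBelow_spec (allBelow_spec (allBelow_spec h d d.2) c hcd) b hbc
  simp only [Bool.and_eq_true, Bool.not_eq_true', beq_eq_false_iff_ne, ne_eq] at h1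
  have h2 := allBelow_spec h1.2 a hab
  simp only [Bool.not_eq_true', beq_eq_false_iff_ne, ne_eq] at h2
  exact h2

/-- A certified mask gives a nonempty sign cell. -/
theorem cell_of_nodeCheck (v c : ℕ) (h : nodeCheck v c = true) :
    (cellOf qq (maskSet v)).Nonempty := by
  simp only [nodeCheck, Bool.and_eq_true, decide_eq_true_eq] at h
  obtain ⟨⟨_, ⟨h1, h2⟩, h3⟩, h4⟩ := h
  have hi : c % 24 < 24 := Nat.mod_lt _ (by norm_num)
  have hj : c / 24 % 24 < 24 := Nat.mod_lt _ (by norm_num)
  have hij : (⟨c % 24, hi⟩ : Fin 24) < ⟨c / 24 % 24, hj⟩ := h1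
  have hjk : (⟨c / 24 % 24, hj⟩ : Fin 24) < ⟨c / 576, h3⟩ := h2
  have hW0 := gen3_qq _ _ _ hij hjk
  have hW : (cross (qq ⟨c % 24, hi⟩) (qq ⟨c / 24 % 24, hj⟩) (qq ⟨c / 576, h3⟩)).d ≠ 0 := by
    intro h0
    apply hW0
    simp only [cross] at h0 ⊢
    linear_combination (-1 : ℤ) * h0
  refine cell_at_vertex qq ⟨c % 24, hi⟩ ⟨c / 24 % 24, hj⟩ ⟨c / 576, h3⟩ hij.ne
    (hij.trans hjk).ne hjk.ne hW _ ?_
  intro l hli hlj hlk
  have h5 := allBelow_spec h4 l l.2
  have e1 : ((l : ℕ) == c % 24) = false := by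
    rw [beq_eq_false_iff_ne]
    intro h0
    exact hli (Fin.ext h0)
  have e2 : ((l : ℕ) == c / 24 % 24) = false := by
    rw [beq_eq_false_iff_ne]
    intro h0
    exact hlj (Fin.ext h0)
  have e3 : ((l : ℕ) == c / 576) = false := by
    rw [beq_eq_false_iff_ne]
    intro h0
    exact hlk (Fin.ext h0)
  simp only [e1, e2, e3, Bool.false_or] at h5
  rw [mem_maskSet]
  cases hb : v.testBit l
  · rw [hb] at h5
    simp only [cond_false, decide_eq_true_eq] at h5
    exact ⟨fun h => absurd h (by simp), fun _ => h5⟩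
  · rw [hb] at h5
    simp only [cond_true, decide_eq_true_eq] at h5
    exact ⟨fun _ => h5, fun h => absurd rfl h⟩

theorem ltS : ∀ v ∈ treeS.keys, v < 2 ^ 24 := fun v hv => (treeS.ordered_range _ _ ordS v hv).2

theorem ltT : ∀ v ∈ treeT.keys, v < 2 ^ 24 := fun v hv => (treeT.ordered_range _ _ ordT v hv).2

theorem cellS : ∀ v ∈ treeS.keys, (cellOf qq (maskSet v)).Nonempty := fun v hv => by
  obtain ⟨c, hc⟩ := treeS.all_spec nodesS v hv
  exact cell_of_nodeCheck v c hc

theorem cellT : ∀ v ∈ treeT.keys, (cellOf qq (maskSet v)).Nonempty := fun v hv => by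
  obtain ⟨c, hc⟩ := treeT.all_spec nodesT v hv
  exact cell_of_nodeCheck v c hc

theorem disjoint_keys : Disjoint treeS.keys treeT.keys := by
  rw [Finset.disjoint_left]
  intro v hv hv'
  obtain ⟨c, hc⟩ := treeS.all_spec disjST v hv
  have := treeT.mem_of_mem_keys _ _ ordT v hv'
  rw [this] at hc
  simp at hc

/-- The sign vectors of the chambers in `S`. -/
def SA : Finset (Finset (Fin 24)) := treeS.keys.image maskSet

/-- The sign vectors of the chambers outside `S`. -/
def TA : Finset (Finset (Fin 24)) := treeT.keys.image maskSet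

theorem card_union_keys : (treeS.keys ∪ treeT.keys).card = 2325 := by
  rw [Finset.card_union_of_disjoint disjoint_keys, treeS.card_keys _ _ ordS,
    treeT.card_keys _ _ ordT, sizeS, sizeT]

theorem card_SA : SA.card = 1160 := by
  unfold SA
  rw [Finset.card_image_of_injOn, treeS.card_keys _ _ ordS, sizeS]
  intro v hv w hw h
  exact maskSet_inj (ltS v hv) (ltS w hw) h

theorem union_eq : SA ∪ TA = (treeS.keys ∪ treeT.keys).image maskSet := by
  rw [Finset.image_union]; rfl

theorem card_union : (SA ∪ TA).card = 2325 := by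
  rw [union_eq, Finset.card_image_of_injOn, card_union_keys]
  intro v hv w hw h
  have hlt : ∀ u ∈ (treeS.keys ∪ treeT.keys : Finset ℕ), u < 2 ^ 24 := by
    intro u hu
    rcases Finset.mem_union.1 hu with h | h
    · exact ltS u h
    · exact ltT u h
  exact maskSet_inj (hlt v hv) (hlt w hw) h

theorem cell_union : ∀ A ∈ SA ∪ TA, (cellOf qq A).Nonempty := by
  intro A hA
  rcases Finset.mem_union.1 hA with h | h
  · obtain ⟨v, hv, rfl⟩ := Finset.mem_image.1 h
    exact cellS v hv
  · obtain ⟨v, hv, rfl⟩ := Finset.mem_image.1 h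
    exact cellT v hv

/-- Completeness: every nonempty sign cell is in the list. -/
theorem mem_union_of_cell (A : Finset (Fin 24)) (hA : (cellOf qq A).Nonempty) :
    A ∈ SA ∪ TA := by
  by_contra hcon
  have h1 := card_cells_le qq (insert A (SA ∪ TA)) (by
    intro B hB
    rcases Finset.mem_insert.1 hB with rfl | h
    · exact hA
    · exact cell_union B h)
  rw [Finset.card_insert_of_notMem hcon, card_union] at h1
  have h2 : ∑ k ∈ Finset.range 4, Nat.choose 24 k = 2325 := by decide
  omega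

/-- The arrangement. -/
noncomputable def HH : Finset (AffineSubspace ℝ E3) := arr qq

theorem genPos_HH : GeneralPosition 3 HH :=
  generalPosition_arr (by norm_num) qq gen3_qq gen4_qq

/-- The chamber with a given sign vector. -/
noncomputable def toCh (A : {A : Finset (Fin 24) // (cellOf qq A).Nonempty}) : chambers HH :=
  ⟨cellOf qq A.1, (mem_chambers_arr qq _).2 ⟨A.1, A.2, rfl⟩⟩

theorem toCh_injective : Function.Injective toCh := by
  intro A B h
  apply Subtype.ext
  exact cellOf_injOn qq A.1 B.1 A.2 (congrArg Subtype.val h)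

theorem toCh_surjective : Function.Surjective toCh := by
  rintro ⟨C, hC⟩
  obtain ⟨A, hA, rfl⟩ := (mem_chambers_arr qq C).1 hC
  exact ⟨⟨A, hA⟩, rfl⟩

/-- The set of chambers. -/
def SS : Set (chambers HH) := toCh '' {A | A.1 ∈ SA}

theorem encard_SS : SS.encard = 1160 := by
  unfold SS
  rw [toCh_injective.encard_image]
  have h : (Subtype.val '' {A : {A : Finset (Fin 24) // (cellOf qq A).Nonempty} | A.1 ∈ SA})
      = (SA : Set (Finset (Fin 24))) := by
    ext B
    constructor
    · rintro ⟨A, hA, rfl⟩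
      exact hA
    · intro hB
      exact ⟨⟨B, cell_union B (Finset.mem_union_left _ hB)⟩, hB, rfl⟩
  rw [← Subtype.val_injective.encard_image, h, Set.encard_coe_eq_coe_finsetCard, card_SA]
  rfl

theorem encard_chambers : (chambers HH).encard = 2325 := by
  have h1 : chambers HH = (cellOf qq) '' ((SA ∪ TA : Finset (Finset (Fin 24))) : Set (Finset (Fin 24))) := by
    ext C
    rw [show HH = arr qq from rfl, mem_chambers_arr]
    constructor
    · rintro ⟨A, hA, rfl⟩
      exact ⟨A, mem_union_of_cell A hA, rfl⟩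
    · rintro ⟨A, hA, rfl⟩
      exact ⟨A, cell_union A hA, rfl⟩
  rw [h1, Set.InjOn.encard_image, Set.encard_coe_eq_coe_finsetCard, card_union]
  · rfl
  · intro A hA B hB h
    exact cellOf_injOn qq A B (cell_union A hA) h

/-- Flipping one bit. -/
theorem xor_of_maskSet {v w : ℕ} (hv : v < 2 ^ 24) (hw : w < 2 ^ 24) (i : Fin 24)
    (h : ∀ j : Fin 24, ¬ (j ∈ maskSet v ↔ j ∈ maskSet w) ↔ j = i) : w = v ^^^ 2 ^ (i : ℕ) := by
  apply Nat.eq_of_testBit_eq
  intro j
  rw [Nat.testBit_xor, Nat.testBit_two_pow]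
  by_cases hj : j < 24
  · have h1 := h ⟨j, hj⟩
    rw [mem_maskSet, mem_maskSet] at h1
    simp only at h1
    by_cases hji : (i : ℕ) = j
    · have h2 : (⟨j, hj⟩ : Fin 24) = i := Fin.ext hji.symm
      have h3 := h1.2 h2
      cases hvj : v.testBit j <;> cases hwj : w.testBit j <;> simp_all
    · have h2 : ¬ ((⟨j, hj⟩ : Fin 24) = i) := fun h0 => hji (congrArg Fin.val h0).symm
      have h3 : ¬ ¬ (v.testBit j = true ↔ w.testBit j = true) := fun h0 => h2 (h1.1 h0)
      cases hvj : v.testBit j <;> cases hwj : w.testBit j <;> simp_all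
  · have h1 : v < 2 ^ j := lt_of_lt_of_le hv (Nat.pow_le_pow_right (by norm_num) (not_lt.1 hj))
    have h2 : w < 2 ^ j := lt_of_lt_of_le hw (Nat.pow_le_pow_right (by norm_num) (not_lt.1 hj))
    have h3 : (i : ℕ) ≠ j := by have := i.2; omega
    rw [Nat.testBit_lt_two_pow h1, Nat.testBit_lt_two_pow h2]
    simp [h3]

open Classical in
/-- A total version of `toCh` on masks. -/
noncomputable def chOf (C0 : chambers HH) (v : ℕ) : chambers HH :=
  if h : (cellOf qq (maskSet v)).Nonempty then toCh ⟨maskSet v, h⟩ else C0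

theorem chOf_eq (C0 : chambers HH) (v : ℕ) (h : (cellOf qq (maskSet v)).Nonempty) :
    chOf C0 v = toCh ⟨maskSet v, h⟩ := by
  rw [chOf, dif_pos h]

/-- Pairs (mask in `S`, bit) whose flip is in `T`. -/
def bdPairs : Finset (ℕ × ℕ) :=
  (treeS.keys ×ˢ Finset.range 24).filter fun p => treeT.mem (p.1 ^^^ 2 ^ p.2) = true

theorem card_bdPairs : bdPairs.card ≤ 187 := by
  have h1 : bdPairs.card = ∑ v ∈ treeS.keys, cntBelow 24 fun i => treeT.mem (v ^^^ 2 ^ i) := by
    unfold bdPairs
    rw [Finset.card_filter, Finset.sum_product]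
    refine Finset.sum_congr rfl fun v _ => ?_
    rw [cntBelow_eq, Finset.card_filter]
  rw [h1, ← boundary_count]
  exact Tr.sum_keys_le _ _

theorem encard_boundary : (edgeBoundary (chamberGraph HH) SS).encard ≤ 187 := by
  classical
  rcases Set.eq_empty_or_nonempty SS with hemp | ⟨C0, _⟩
  · have := encard_SS
    rw [hemp] at this
    simp at this
  have hsub : edgeBoundary (chamberGraph HH) SS ⊆
      (fun p : ℕ × ℕ => s(chOf C0 p.1, chOf C0 (p.1 ^^^ 2 ^ p.2))) '' (bdPairs : Set (ℕ × ℕ)) := by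
    rintro e ⟨he, C, D, rfl, hC, hD⟩
    rw [SimpleGraph.mem_edgeSet] at he
    obtain ⟨A, hA, rfl⟩ := hC
    obtain ⟨B, rfl⟩ := toCh_surjective D
    obtain ⟨v, hv, hvA⟩ := Finset.mem_image.1 (show A.1 ∈ SA from hA)
    have hBT : B.1 ∈ TA := by
      rcases Finset.mem_union.1 (mem_union_of_cell B.1 B.2) with h | h
      · exact absurd ⟨B, h, rfl⟩ hD
      · exact h
    obtain ⟨w, hw, hwB⟩ := Finset.mem_image.1 hBT
    obtain ⟨_, H, ⟨hH, hsep⟩, huniq⟩ := he
    obtain ⟨i, rfl⟩ := (mem_arr qq H).1 hH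
    have hinj := hyp_injective (by norm_num) qq gen3_qq
    have hiff : ∀ j : Fin 24, ¬ (j ∈ maskSet v ↔ j ∈ maskSet w) ↔ j = i := by
      intro j
      rw [hvA, hwB, ← separates_cellOf qq A.1 B.1 j A.2 B.2]
      constructor
      · intro h
        exact hinj (huniq (hyp (qq j)) ⟨(mem_arr qq _).2 ⟨j, rfl⟩, h⟩)
      · rintro rfl
        exact hsep
    have hxor := xor_of_maskSet (ltS v hv) (ltT w hw) i hiff
    refine ⟨(v, (i : ℕ)), ?_, ?_⟩
    · simp only [bdPairs, Finset.coe_filter, Finset.mem_product, Finset.mem_range]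
      refine ⟨⟨hv, i.2⟩, ?_⟩
      simp only
      rw [← hxor]
      exact treeT.mem_of_mem_keys _ _ ordT w hw
    · simp only
      rw [← hxor, chOf_eq C0 v (by rw [hvA]; exact A.2), chOf_eq C0 w (by rw [hwB]; exact B.2)]
      have e1 : (⟨maskSet v, by rw [hvA]; exact A.2⟩ :
          {A : Finset (Fin 24) // (cellOf qq A).Nonempty}) = A := Subtype.ext hvA
      have e2 : (⟨maskSet w, by rw [hwB]; exact B.2⟩ :
          {A : Finset (Fin 24) // (cellOf qq A).Nonempty}) = B := Subtype.ext hwB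
      rw [e1, e2]
  refine (Set.encard_le_encard hsub).trans ((Set.encard_image_le _ _).trans ?_)
  rw [Set.encard_coe_eq_coe_finsetCard]
  exact_mod_cast card_bdPairs

end Pool.Agent.ChamberIso
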