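import Pool.Agent.ChamberIso.GenPos
/-!
Search trees.
-/
set_option autoImplicit false
set_option maxRecDepth 100000

namespace Pool.Agent.ChamberIso

theorem allBelow_spec {n : ℕ} {p : ℕ → Bool} (h : allBelow n p = true) :
    ∀ i, i < n → p i = true := by
  induction n with
  | zero => intro i hi; omega
  | succ n ih =>
    intro i hi
    simp only [allBelow, Bool.and_eq_true] at h
    rcases Nat.lt_succ_iff_lt_or_eq.1 hi with h1 | h1
    · exact ih h.2 i h1
    · rw [h1]; exact h.1

/-- The set of keys of a tree. -/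
def Tr.keys : Tr → Finset ℕ
  | Tr.L => ∅
  | Tr.n l v _ r => insert v (l.keys ∪ r.keys)

theorem Tr.all_spec {p : ℕ → ℕ → Bool} (t : Tr) (h : t.all p = true) :
    ∀ v ∈ t.keys, ∃ c, p v c = true := by
  induction t with
  | L => intro v hv; simp [Tr.keys] at hv
  | n l v c r ihl ihr =>
    intro w hw
    simp only [Tr.all, Bool.and_eq_true] at h
    simp only [Tr.keys, Finset.mem_insert, Finset.mem_union] at hw
    rcases hw with rfl | hw | hw
    · exact ⟨c, h.1⟩
    · exact ihl h.2.1 w hw
    · exact ihr h.2.2 w hw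

theorem Tr.ordered_range (t : Tr) (lo hi : ℕ) (h : t.ordered lo hi = true) :
    ∀ v ∈ t.keys, lo ≤ v ∧ v < hi := by
  induction t generalizing lo hi with
  | L => intro v hv; simp [Tr.keys] at hv
  | n l v c r ihl ihr =>
    intro w hw
    simp only [Tr.ordered, Bool.and_eq_true, decide_eq_true_eq] at h
    obtain ⟨⟨h1, h2⟩, h3, h4⟩ := h
    simp only [Tr.keys, Finset.mem_insert, Finset.mem_union] at hw
    rcases hw with rfl | hw | hw
    · exact ⟨h1, h2⟩
    · have := ihl lo v h3 w hw; omega
    · have := ihr (v + 1) hi h4 w hw; omega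

theorem Tr.card_keys (t : Tr) (lo hi : ℕ) (h : t.ordered lo hi = true) :
    t.keys.card = t.size := by
  induction t generalizing lo hi with
  | L => rfl
  | n l v c r ihl ihr =>
    simp only [Tr.ordered, Bool.and_eq_true, decide_eq_true_eq] at h
    obtain ⟨⟨h1, h2⟩, h3, h4⟩ := h
    have hl := l.ordered_range lo v h3
    have hr := r.ordered_range (v + 1) hi h4
    have hd : Disjoint l.keys r.keys := by
      rw [Finset.disjoint_left]
      intro w hw hw'
      have := hl w hw
      have := hr w hw'
      omega
    have hv : v ∉ l.keys ∪ r.keys := by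
      rw [Finset.mem_union]
      rintro (hw | hw)
      · have := hl v hw; omega
      · have := hr v hw; omega
    simp only [Tr.keys, Tr.size]
    rw [Finset.card_insert_of_notMem hv, Finset.card_union_of_disjoint hd, ihl lo v h3,
      ihr (v + 1) hi h4]
    omega

theorem Tr.mem_of_mem_keys (t : Tr) (lo hi : ℕ) (h : t.ordered lo hi = true) :
    ∀ v ∈ t.keys, t.mem v = true := by
  induction t generalizing lo hi with
  | L => intro v hv; simp [Tr.keys] at hv
  | n l v c r ihl ihr =>
    intro w hw
    simp only [Tr.ordered, Bool.and_eq_true, decide_eq_true_eq] at h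
    obtain ⟨⟨h1, h2⟩, h3, h4⟩ := h
    have hl := l.ordered_range lo v h3
    have hr := r.ordered_range (v + 1) hi h4
    simp only [Tr.keys, Finset.mem_insert, Finset.mem_union] at hw
    rcases hw with rfl | hw | hw
    · have h5 : Nat.blt w w = false := by
        rw [Bool.eq_false_iff, Ne, Nat.blt_eq]; omega
      simp only [Tr.mem, h5, cond_false]
    · have hlt := (hl w hw).2
      have h5 : Nat.blt w v = true := by rw [Nat.blt_eq]; exact hlt
      simp only [Tr.mem, h5, cond_true]
      exact ihl lo v h3 w hw
    · have hlt := (hr w hw).1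
      have h5 : Nat.blt w v = false := by
        rw [Bool.eq_false_iff, Ne, Nat.blt_eq]; omega
      have h6 : Nat.blt v w = true := by rw [Nat.blt_eq]; omega
      simp only [Tr.mem, h5, h6, cond_true, cond_false]
      exact ihr (v + 1) hi h4 w hw

/-- Number of `i < n` with `p i`. -/
def cntBelow : ℕ → (ℕ → Bool) → ℕ
  | 0, _ => 0
  | n + 1, p => (bif p n then 1 else 0) + cntBelow n p

theorem cntBelow_eq (n : ℕ) (p : ℕ → Bool) :
    cntBelow n p = ((Finset.range n).filter fun i => p i = true).card := by
  induction n with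
  | zero => rfl
  | succ n ih =>
    rw [cntBelow, ih, Finset.range_add_one, Finset.filter_insert]
    by_cases h : p n = true
    · rw [if_pos h, Finset.card_insert_of_notMem (by simp), h]
      simp only [cond_true]
      omega
    · rw [if_neg h]
      rw [Bool.not_eq_true] at h
      rw [h]
      simp

/-- Sum of `f` over the keys. -/
def Tr.sumOver (f : ℕ → ℕ) : Tr → ℕ
  | Tr.L => 0
  | Tr.n l v _ r => f v + (l.sumOver f + r.sumOver f)

theorem Tr.sum_keys_le (f : ℕ → ℕ) (t : Tr) : ∑ v ∈ t.keys, f v ≤ t.sumOver f := by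
  induction t with
  | L => simp [Tr.keys, Tr.sumOver]
  | n l v c r ihl ihr =>
    simp only [Tr.keys, Tr.sumOver]
    have h1 : ∑ w ∈ insert v (l.keys ∪ r.keys), f w ≤ f v + ∑ w ∈ (l.keys ∪ r.keys), f w := by
      by_cases hv : v ∈ l.keys ∪ r.keys
      · rw [Finset.insert_eq_of_mem hv]
        exact Nat.le_add_left _ _
      · rw [Finset.sum_insert hv]
    have h2 : ∑ w ∈ (l.keys ∪ r.keys), f w ≤ ∑ w ∈ l.keys, f w + ∑ w ∈ r.keys, f w := by
      rw [← Finset.sum_union_inter]
      exact Nat.le_add_right _ _
    omega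

end Pool.Agent.ChamberIso
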