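import Pool.Agent.ChamberIso.Cells
/-!
The number of sign cells of `n` affine functions on `ℝ^3` is at most
`C(n,0) + C(n,1) + C(n,2) + C(n,3)`, by the Sauer-Shelah lemma.
-/
set_option autoImplicit false

namespace Pool.Agent.ChamberIso

open Finset in
/-- Four affine functions on `ℝ^3` do not have all sign patterns. -/
theorem not_shatters {n : ℕ} (q : Fin n → P4) (𝒜 : Finset (Finset (Fin n)))
    (h𝒜 : ∀ A ∈ 𝒜, (cellOf q A).Nonempty) (s : Finset (Fin n)) (hs : s.card = 4) :
    ¬ 𝒜.Shatters s := by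
  intro hsh
  let v : s → (Fin 3 → ℝ) := fun i => ![((q i).a : ℝ), (q i).b, (q i).c]
  have hdep : ¬ LinearIndependent ℝ v := by
    intro hli
    have := hli.fintype_card_le_finrank
    simp [hs] at this
  obtain ⟨g, hg, i0, hi0⟩ := Fintype.not_linearIndependent_iff.1 hdep
  have ha : ∑ i, g i * ((q i).a : ℝ) = 0 := by
    have := congrFun hg 0
    simpa [v, Finset.sum_apply] using this
  have hb : ∑ i, g i * ((q i).b : ℝ) = 0 := by
    have := congrFun hg 1
    simpa [v, Finset.sum_apply] using this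
  have hc : ∑ i, g i * ((q i).c : ℝ) = 0 := by
    have := congrFun hg 2
    simpa [v, Finset.sum_apply] using this
  have key : ∀ x : E3, ∑ i : s, g i * ev (q i) x = ∑ i : s, g i * ((q i).d : ℝ) := by
    intro x
    have : ∀ i : s, g i * ev (q i) x = g i * ((q i).a : ℝ) * x 0 + g i * ((q i).b : ℝ) * x 1
        + g i * ((q i).c : ℝ) * x 2 + g i * ((q i).d : ℝ) := by
      intro i
      unfold ev
      ring
    simp_rw [this, Finset.sum_add_distrib, ← Finset.sum_mul, ha, hb, hc]
    ring
  -- choose the sign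
  have main : ∀ g' : s → ℝ, (∀ x : E3, ∑ i : s, g' i * ev (q i) x = ∑ i : s, g' i * ((q i).d : ℝ)) →
      (∑ i : s, g' i * ((q i).d : ℝ)) ≤ 0 → g' i0 ≠ 0 → False := by
    intro g' hkey hneg hne
    let t : Finset (Fin n) := (Finset.univ.filter fun i : s => 0 < g' i).map
      (Function.Embedding.subtype _)
    have ht : t ⊆ s := by
      intro i hi
      simp only [t, Finset.mem_map, Finset.mem_filter, Finset.mem_univ, true_and,
        Function.Embedding.subtype_apply] at hi
      obtain ⟨j, _, rfl⟩ := hi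
      exact j.2
    have hmt : ∀ i : s, (i : Fin n) ∈ t ↔ 0 < g' i := by
      intro i
      simp only [t, Finset.mem_map, Finset.mem_filter, Finset.mem_univ, true_and,
        Function.Embedding.subtype_apply]
      constructor
      · rintro ⟨j, hj, hji⟩
        have : j = i := Subtype.ext hji
        rwa [← this]
      · intro h
        exact ⟨i, h, rfl⟩
    obtain ⟨u, hu, hut⟩ := hsh ht
    obtain ⟨x, hx⟩ := h𝒜 u hu
    have hmu : ∀ i : s, (i : Fin n) ∈ u ↔ 0 < g' i := by
      intro i
      rw [← hmt i, ← hut]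
      simp
    have hterm : ∀ i : s, 0 ≤ g' i * ev (q i) x := by
      intro i
      by_cases hi : 0 < g' i
      · exact (mul_pos hi ((hx i).1 ((hmu i).2 hi))).le
      · exact mul_nonneg_of_nonpos_of_nonpos (not_lt.1 hi)
          ((hx i).2 (fun h => hi ((hmu i).1 h))).le
    have hterm0 : 0 < g' i0 * ev (q i0) x := by
      rcases lt_or_gt_of_ne hne with hi | hi
      · exact mul_pos_of_neg_of_neg hi ((hx i0).2 (fun h => not_lt.2 hi.le ((hmu i0).1 h)))
      · exact mul_pos hi ((hx i0).1 ((hmu i0).2 hi))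
    have hpos : 0 < ∑ i : s, g' i * ev (q i) x :=
      Finset.sum_pos' (fun i _ => hterm i) ⟨i0, Finset.mem_univ _, hterm0⟩
    rw [hkey x] at hpos
    exact absurd hneg (not_le.2 hpos)
  rcases le_total (∑ i : s, g i * ((q i).d : ℝ)) 0 with h | h
  · exact main g key h hi0
  · refine main (fun i => - g i) ?_ ?_ (neg_ne_zero.2 hi0)
    · intro x
      simp only [neg_mul, Finset.sum_neg_distrib, key x]
    · simp only [neg_mul, Finset.sum_neg_distrib]
      linarith

/-- The number of sign cells is at most `C(n,0) + C(n,1) + C(n,2) + C(n,3)`. -/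
theorem card_cells_le {n : ℕ} (q : Fin n → P4) (𝒜 : Finset (Finset (Fin n)))
    (h𝒜 : ∀ A ∈ 𝒜, (cellOf q A).Nonempty) :
    𝒜.card ≤ ∑ k ∈ Finset.range 4, n.choose k := by
  have h1 := 𝒜.card_le_card_shatterer
  have h2 := Finset.card_shatterer_le_sum_vcDim (𝒜 := 𝒜)
  have h3 : 𝒜.vcDim ≤ 3 := by
    unfold Finset.vcDim
    refine Finset.sup_le fun s hs => ?_
    rw [Finset.mem_shatterer] at hs
    by_contra hcon
    push Not at hcon
    obtain ⟨t, hts, htc⟩ := Finset.exists_subset_card_eq (show 4 ≤ s.card from hcon)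
    exact not_shatters q 𝒜 h𝒜 t htc (hs.mono_right hts)
  rw [Fintype.card_fin] at h2
  refine h1.trans (h2.trans ?_)
  refine Finset.sum_le_sum_of_subset ?_
  intro k hk
  rw [Finset.mem_Iic] at hk
  rw [Finset.mem_range]
  omega

end Pool.Agent.ChamberIso
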