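import Pool.Agent.ChamberIso.VC
/-!
Sign cells at a vertex of the arrangement, and general position.
-/
set_option autoImplicit false

namespace Pool.Agent.ChamberIso

open Filter Topology

theorem dot_cross_1 (p q r : P4) : dot p (cross p q r) = 0 := by
  simp only [dot, cross]; ring

theorem dot_cross_2 (p q r : P4) : dot q (cross p q r) = 0 := by
  simp only [dot, cross]; ring

theorem dot_cross_3 (p q r : P4) : dot r (cross p q r) = 0 := by
  simp only [dot, cross]; ring

/-- The point with homogeneous coordinates `P`. -/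
noncomputable def pt (P : P4) : E3 := ![(P.a : ℝ) / P.d, (P.b : ℝ) / P.d, (P.c : ℝ) / P.d]

theorem ev_pt (l P : P4) (hP : P.d ≠ 0) : ev l (pt P) = (dot l P : ℝ) / P.d := by
  have h : (P.d : ℝ) ≠ 0 := by exact_mod_cast hP
  have h0 : (pt P) 0 = (P.a : ℝ) / P.d := rfl
  have h1 : (pt P) 1 = (P.b : ℝ) / P.d := rfl
  have h2 : (pt P) 2 = (P.c : ℝ) / P.d := rfl
  rw [ev, h0, h1, h2, dot]
  push_cast
  field_simp

/-- The direction along which the three functions have prescribed slopes. -/
noncomputable def dirv (p q r : P4) (u v w : ℝ) : E3 :=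
  ![(u * (q.b * r.c - q.c * r.b) + v * (r.b * p.c - r.c * p.b) + w * (p.b * q.c - p.c * q.b))
      / (cross p q r).d,
    (u * (q.c * r.a - q.a * r.c) + v * (r.c * p.a - r.a * p.c) + w * (p.c * q.a - p.a * q.c))
      / (cross p q r).d,
    (u * (q.a * r.b - q.b * r.a) + v * (r.a * p.b - r.b * p.a) + w * (p.a * q.b - p.b * q.a))
      / (cross p q r).d]

/-- Linear part. -/
noncomputable def lin (p : P4) (x : E3) : ℝ := p.a * x 0 + p.b * x 1 + p.c * x 2

theorem ev_add_smul (p : P4) (x v : E3) (t : ℝ) :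
    ev p (x + t • v) = ev p x + t * lin p v := by
  simp only [ev, lin, Pi.add_apply, Pi.smul_apply, smul_eq_mul]
  ring

theorem lin_dirv (p q r : P4) (u v w : ℝ) (h : (cross p q r).d ≠ 0) :
    lin p (dirv p q r u v w) = u ∧ lin q (dirv p q r u v w) = v ∧
      lin r (dirv p q r u v w) = w := by
  have h' : ((cross p q r).d : ℝ) ≠ 0 := by exact_mod_cast h
  have hd : ((cross p q r).d : ℝ) = p.a * (q.b * r.c - q.c * r.b)
      - p.b * (q.a * r.c - q.c * r.a) + p.c * (q.a * r.b - q.b * r.a) := by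
    simp only [cross]; push_cast; ring
  refine ⟨?_, ?_, ?_⟩
  · simp only [lin, dirv]
    simp
    rw [← mul_div_assoc, ← mul_div_assoc, ← mul_div_assoc, ← add_div, ← add_div, div_eq_iff h', hd]
    ring
  · simp only [lin, dirv]
    simp
    rw [← mul_div_assoc, ← mul_div_assoc, ← mul_div_assoc, ← add_div, ← add_div, div_eq_iff h', hd]
    ring
  · simp only [lin, dirv]
    simp
    rw [← mul_div_assoc, ← mul_div_assoc, ← mul_div_assoc, ← add_div, ← add_div, div_eq_iff h', hd]
    ring

/-- All eight sign patterns at a simple vertex are realised. -/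
theorem cell_at_vertex {n : ℕ} (q : Fin n → P4) (i j k : Fin n)
    (hij : i ≠ j) (hik : i ≠ k) (hjk : j ≠ k)
    (hW : (cross (q i) (q j) (q k)).d ≠ 0) (A : Finset (Fin n))
    (hA : ∀ l, l ≠ i → l ≠ j → l ≠ k →
      (l ∈ A → 0 < dot (q l) (cross (q i) (q j) (q k)) * (cross (q i) (q j) (q k)).d) ∧
      (l ∉ A → dot (q l) (cross (q i) (q j) (q k)) * (cross (q i) (q j) (q k)).d < 0)) :
    (cellOf q A).Nonempty := by
  classical
  set P := cross (q i) (q j) (q k) with hPdef
  have hW' : (P.d : ℝ) ≠ 0 := by exact_mod_cast hW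
  have hW2 : 0 < (P.d : ℝ) ^ 2 := by positivity
  let e : Fin n → ℝ := fun l => if l ∈ A then 1 else -1
  let v : E3 := dirv (q i) (q j) (q k) (e i) (e j) (e k)
  obtain ⟨hv1, hv2, hv3⟩ := lin_dirv (q i) (q j) (q k) (e i) (e j) (e k) hW
  have hz : ∀ l, dot (q l) P = 0 → ev (q l) (pt P) = 0 := by
    intro l hl
    rw [ev_pt _ _ hW, hl]
    simp
  have hev : ∀ l, ∀ᶠ t in 𝓝[>] (0 : ℝ),
      (l ∈ A → 0 < ev (q l) (pt P + t • v)) ∧ (l ∉ A → ev (q l) (pt P + t • v) < 0) := by
    intro l
    have hcase : ∀ m : Fin n, dot (q m) P = 0 → lin (q m) v = e m → ∀ᶠ t in 𝓝[>] (0 : ℝ),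
      (m ∈ A → 0 < ev (q m) (pt P + t • v)) ∧ (m ∉ A → ev (q m) (pt P + t • v) < 0) := by
      intro m hm hmv
      filter_upwards [self_mem_nhdsWithin] with t ht
      have ht0 : (0 : ℝ) < t := ht
      rw [ev_add_smul, hz m hm, hmv, zero_add]
      constructor
      · intro h; simp only [e, if_pos h]; linarith
      · intro h; simp only [e, if_neg h]; linarith
    by_cases h1 : l = i
    · subst h1; exact hcase l (dot_cross_1 _ _ _) hv1
    by_cases h2 : l = j
    · subst h2; exact hcase l (dot_cross_2 _ _ _) hv2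
    by_cases h3 : l = k
    · subst h3; exact hcase l (dot_cross_3 _ _ _) hv3
    obtain ⟨hp, hn⟩ := hA l h1 h2 h3
    have hcont : Tendsto (fun t : ℝ => ev (q l) (pt P + t • v)) (𝓝[>] (0 : ℝ))
        (𝓝 (ev (q l) (pt P))) := by
      have hc : Continuous fun t : ℝ => ev (q l) (pt P + t • v) := by
        simp_rw [ev_add_smul]
        fun_prop
      have := hc.tendsto 0
      simp only [zero_smul, add_zero] at this
      exact this.mono_left nhdsWithin_le_nhds
    have hval : ev (q l) (pt P) * (P.d : ℝ) ^ 2 = ((dot (q l) P * P.d : ℤ) : ℝ) := by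
      rw [ev_pt _ _ hW]
      push_cast
      field_simp
    by_cases hlA : l ∈ A
    · have h4 : 0 < ev (q l) (pt P) := by
        have h5 : (0 : ℝ) < ((dot (q l) P * P.d : ℤ) : ℝ) := by exact_mod_cast hp hlA
        rw [← hval] at h5
        exact pos_of_mul_pos_left h5 hW2.le
      filter_upwards [hcont.eventually (lt_mem_nhds h4)] with t ht
      exact ⟨fun _ => ht, fun h => absurd hlA h⟩
    · have h4 : ev (q l) (pt P) < 0 := by
        have h5 : ((dot (q l) P * P.d : ℤ) : ℝ) < 0 := by exact_mod_cast hn hlA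
        rw [← hval] at h5
        by_contra hcon
        exact absurd h5 (not_lt.2 (mul_nonneg (not_lt.1 hcon) hW2.le))
      filter_upwards [hcont.eventually (gt_mem_nhds h4)] with t ht
      exact ⟨fun h => absurd h hlA, fun _ => ht⟩
  obtain ⟨t, ht⟩ := (eventually_all.2 hev).exists
  exact ⟨pt P + t • v, ht⟩

end Pool.Agent.ChamberIso
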